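import Pool.Agent.Helper17.SLD.Goals
import Pool.Agent.Helper12.SL.GA7

/-! Packet SPL of project SLD. -/

namespace Pool.Agent.Helper17.SLD.PkSPL

open Pool.Agent.Helper17.SL Pool.Agent.Helper42.SLC Pool.Agent.Helper17.SLD
open Pool.Agent.Helper51.SigLeo Pool.Agent.Helper51.SixExp NumberField Module TensorProduct

universe u v w

theorem thm (hCONJ : S_CONJ.{w}) : S_SPL.{u, v, w} := by
  intro F _ _ _ N _ _ _ _ Ω _ _ _ _ n τ f g s hn hinj hf hg hc hrel m₀ ρ
  have hfd : FiniteDimensional F N := FiniteDimensional.right ℚ F N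
  obtain ⟨ι₀, hι₀⟩ := exists_comp_eq (τ m₀) ρ
  -- conjugation of an embedding is given by an element of the Galois group
  have hgal : ∀ σ : N →+* ℂ, ∃ c : N ≃ₐ[F] N,
      ComplexEmbedding.conjugate σ = σ.comp (c : N →+* N) := by
    intro σ
    refine Pool.Agent.Helper17.SL.PkGA7.thm F N ℂ σ (ComplexEmbedding.conjugate σ) ?_
    have h1 : ComplexEmbedding.conjugate (σ.comp (algebraMap F N)) = σ.comp (algebraMap F N) :=
      ComplexEmbedding.isReal_iff.1 (IsTotallyReal.complexEmbedding_isReal _)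
    rw [← h1]
    ext x
    rfl
  -- the relation for one index
  have key : ∀ m' : Fin n, ∑ m, (f m (ι₀.comp (τ m)) - g m (ι₀.comp (τ m))) =
      2 * (f m' (ι₀.comp (τ m')) - g m' (ι₀.comp (τ m'))) := by
    intro m'
    obtain ⟨ρs, hρs⟩ := exists_extend_embedding (K := F) (H := N) s
    obtain ⟨ι₁, hι₁⟩ := exists_comp_eq (τ m') ρs
    obtain ⟨γ, hγ⟩ := hCONJ Ω ι₁
    choose c hcc using fun m ↦ hgal (ι₁.comp (τ m))
    have hγτ : ∀ m, γ.comp (τ m) = (τ m).comp (c m : N →+* N) := by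
      intro m
      ext x
      apply ι₁.injective
      have e1 := RingHom.congr_fun hγ (τ m x)
      have e2 := RingHom.congr_fun (hcc m) x
      simp only [RingHom.comp_apply, ComplexEmbedding.conjugate_coe_eq] at e1 e2 ⊢
      rw [e1, ← e2]
    have hm' : (ι₁.comp (τ m')).comp (algebraMap F N) = s := by
      rw [hι₁, hρs]
    have hne : ∀ m, m ≠ m' → (ι₁.comp (τ m)).comp (algebraMap F N) ≠ s := by
      intro m hm he
      apply hm
      apply hinj
      ext x
      apply ι₁.injective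
      have e1 := RingHom.congr_fun he x
      have e2 := RingHom.congr_fun hm' x
      exact e1.trans e2.symm
    have hr := hrel (ι₀.comp γ)
    have hcomp : ∀ m, (ι₀.comp γ).comp (τ m) = (ι₀.comp (τ m)).comp (c m : N →+* N) := by
      intro m
      rw [RingHom.comp_assoc, hγτ m, RingHom.comp_assoc]
    have hterm : ∀ m, f m ((ι₀.comp γ).comp (τ m)) + g m ((ι₀.comp γ).comp (τ m)) =
        (f m (ι₀.comp (τ m)) - g m (ι₀.comp (τ m))) - (if m = m' then
          2 * (f m' (ι₀.comp (τ m')) - g m' (ι₀.comp (τ m'))) else 0) := by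
      intro m
      rw [hcomp m]
      by_cases hm : m = m'
      · subst hm
        obtain ⟨h1, h2⟩ := (hc _ (c m) (hcc m)).1 hm' m (ι₀.comp (τ m))
        rw [h1, h2, if_pos rfl]
        ring
      · obtain ⟨h1, h2⟩ := (hc _ (c m) (hcc m)).2 (hne m hm) m (ι₀.comp (τ m))
        rw [h1, h2, if_neg hm]
        ring
    rw [Finset.sum_congr rfl fun m _ ↦ hterm m, Finset.sum_sub_distrib,
      Finset.sum_ite_eq' Finset.univ m' (fun _ ↦ 2 * (f m' (ι₀.comp (τ m')) -
        g m' (ι₀.comp (τ m')))), if_pos (Finset.mem_univ _)] at hr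
    linear_combination hr
  have hsum : ∑ m, (f m (ι₀.comp (τ m)) - g m (ι₀.comp (τ m))) = 0 := by
    have h1 : ∑ _m' : Fin n, ∑ m, (f m (ι₀.comp (τ m)) - g m (ι₀.comp (τ m))) =
        ∑ m' : Fin n, 2 * (f m' (ι₀.comp (τ m')) - g m' (ι₀.comp (τ m'))) :=
      Finset.sum_congr rfl fun m' _ ↦ key m'
    rw [← Finset.mul_sum, Finset.sum_const, Finset.card_univ, Fintype.card_fin, nsmul_eq_mul] at h1
    have h2 : ((n : ℂ) - 2) * ∑ m, (f m (ι₀.comp (τ m)) - g m (ι₀.comp (τ m))) = 0 := by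
      linear_combination h1
    rcases mul_eq_zero.1 h2 with h | h
    · exfalso
      have h3 : (n : ℂ) = ((2 : ℕ) : ℂ) := by
        rw [sub_eq_zero] at h
        rw [h]
        norm_num
      have h4 : n = 2 := by exact_mod_cast h3
      omega
    · exact h
  have heq : f m₀ ρ = g m₀ ρ := by
    have h1 := key m₀
    rw [hsum, hι₀] at h1
    have h2 : f m₀ ρ - g m₀ ρ = 0 := by
      have : (2 : ℂ) * (f m₀ ρ - g m₀ ρ) = 0 := h1.symm
      rcases mul_eq_zero.1 this with h | h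
      · norm_num at h
      · exact h
    exact sub_eq_zero.1 h2
  obtain ⟨c, hcρ⟩ := hgal ρ
  by_cases hs : ρ.comp (algebraMap F N) = s
  · obtain ⟨h1, -⟩ := (hc ρ c hcρ).1 hs m₀ ρ
    have h2 := hf m₀ ρ
    rw [hcρ, h1] at h2
    have h3 : f m₀ ρ = 0 := self_eq_neg.1 h2.symm
    exact ⟨h3, by rw [← heq]; exact h3⟩
  · obtain ⟨-, h1⟩ := (hc ρ c hcρ).2 hs m₀ ρ
    have h2 := hg m₀ ρ
    rw [hcρ, h1] at h2
    have h3 : g m₀ ρ = 0 := self_eq_neg.1 h2.symm
    exact ⟨by rw [heq]; exact h3, h3⟩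

end Pool.Agent.Helper17.SLD.PkSPL
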